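import Mathlib
import Pool.Agent.N634.LF.Line

/-!
# Compositions with high iterates have no invariant line fields

Let `g` be a hyperbolic polynomial of degree at least two and `f` any nonconstant polynomial. For
almost every constant `s`, for Baire generic `s`, and for every `s` for which the (countably many)
marked values escape or are attracted by sinks under `g`, the polynomials `f(g^n(z)) + s` have Julia
sets of area zero, and no invariant line fields on them, for all large `n`.

Method: a starting result of the library (MP_28f8a1_an.HighIterates, of another author) shows that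
these polynomials are hyperbolic, for almost every `s` under the additional hypothesis that the set of
the points which neither escape nor are attracted by a sink of `g` has zero area. We prove this
hypothesis (for every hyperbolic polynomial, by porosity), and that the Julia sets are null sets.
-/

set_option autoImplicit false

open Filter Topology Polynomial MeasureTheory

namespace Pool.Agent.Results.MP_70a088_an.Compositions

open Pool.Agent.N634.LF

theorem natDegree_fg {g f : ℂ[X]} (hg : 2 ≤ g.natDegree) (hf : 1 ≤ f.natDegree) (s : ℂ) {n : ℕ}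
    (hn : 1 ≤ n) : 2 ≤ (f.comp (g.comp^[n] X) + C s).natDegree := by
  rw [natDegree_add_C, natDegree_comp, natDegree_iterate_comp, natDegree_X, mul_one]
  have h1 : 2 ≤ g.natDegree ^ n :=
    hg.trans (Nat.le_self_pow (by omega) _)
  calc 2 ≤ 1 * g.natDegree ^ n := by omega
    _ ≤ f.natDegree * g.natDegree ^ n := Nat.mul_le_mul_right _ hf

/-- Let `g` be a hyperbolic polynomial of degree at least two and `f` a nonconstant polynomial.

(1) For almost every complex number `s` the polynomial `f(g^n(z)) + s` is hyperbolic, its Julia set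
has area zero, and it has no invariant line field, for all large `n`.

(2) The same holds for all `s` outside a meagre set.

(3) The same holds for `f(g^n(z))` itself if all the (countably many) marked values of `f, g` escape
or are attracted by sinks under `g`. -/
theorem result (g : ℂ[X]) (hg : 2 ≤ g.natDegree) (hyp : Hyperbolic g) (f : ℂ[X])
    (hf : 1 ≤ f.natDegree) :
    (∀ᵐ s : ℂ, ∀ᶠ n : ℕ in atTop, Hyperbolic (f.comp (g.comp^[n] X) + C s) ∧
      Rigid (f.comp (g.comp^[n] X) + C s)) ∧
    (∀ᶠ s : ℂ in residual ℂ, ∀ᶠ n : ℕ in atTop, Hyperbolic (f.comp (g.comp^[n] X) + C s) ∧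
      Rigid (f.comp (g.comp^[n] X) + C s)) ∧
    ((∀ m ∈ Marked f g, Tendsto (fun k : ℕ => ‖(map g)^[k] m‖) atTop atTop ∨ Attracted g m) →
      ∀ᶠ n : ℕ in atTop, Hyperbolic (f.comp (g.comp^[n] X)) ∧ Rigid (f.comp (g.comp^[n] X))) := by
  have hvol : volume {z : ℂ | ¬ Pool.Agent.H713R5.QJ.Good (Pool.Agent.H713R5.QJ.ev g) z} = 0 :=
    (hyp_null hg hyp).2
  have h1 : ∀ᵐ s : ℂ, ∀ᶠ n : ℕ in atTop, Hyperbolic (f.comp (g.comp^[n] X) + C s) :=
    Pool.Agent.H400R3.HI.main_ae hg hyp hvol hf
  have h2 : ∀ᶠ s : ℂ in residual ℂ, ∀ᶠ n : ℕ in atTop,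
      Hyperbolic (f.comp (g.comp^[n] X) + C s) := Pool.Agent.H400R3.HI.main_res hg hyp hf
  refine ⟨?_, ?_, fun hM => ?_⟩
  · filter_upwards [h1] with s hs
    filter_upwards [hs, eventually_ge_atTop 1] with n hn hn1
    exact ⟨hn, hn.rigid (natDegree_fg hg hf s hn1)⟩
  · filter_upwards [h2] with s hs
    filter_upwards [hs, eventually_ge_atTop 1] with n hn hn1
    exact ⟨hn, hn.rigid (natDegree_fg hg hf s hn1)⟩
  · have h3 : ∀ᶠ n : ℕ in atTop, Hyperbolic (f.comp (g.comp^[n] X)) :=
      Pool.Agent.H400R3.HI.main hg hyp hf hM
    filter_upwards [h3, eventually_ge_atTop 1] with n hn hn1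
    have h4 := natDegree_fg hg hf 0 hn1
    rw [C_0, add_zero] at h4
    exact ⟨hn, hn.rigid h4⟩

end Pool.Agent.Results.MP_70a088_an.Compositions
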