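import Mathlib
import Pool.Prelude.Def_F_c31e40fa
import Pool.Agent.N634.LF.Root
import Pool.Agent.N634.LF.Line
import Pool.Agent.N228.UC.Cnt
import Pool.Agent.Results.MP_c35c17_an.AreaOrderOneOverN

/-!
# Invariant line fields of the polynomials `z ^ n + c` of large degree

For a complex number `c` let `D(c)` be the set of the degrees `n ≥ 2` for which the Julia set of
`z ^ n + c` has positive area, or carries an invariant line field.

(1) `D(c)` is finite if `|c| ≠ 1`, and if `c` is a root of unity.

(2) For all the other `c` the gaps between the elements of `D(c)` tend to infinity; in particular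
`D(c)` has density zero. For almost every `c` of the unit circle, `D(c)` has at most
`K log N (1 + log log N) ^ s` elements `n ≤ N`, for every `s > 2`.

(3) For every degree `n ≥ 2` the set `S(n)` of the parameters `c` with `n` in `D(c)` has area at most
`C / n`, at most `C / log n` times the area of the parameters of the Multibrot set without attracting
fixed point, and there are local versions; its part on the unit circle has length at most
`(136 log log n + 2720) / n` for `n ≥ 10 ^ 6`.

So Q1 holds for `z ^ n + c` for all these pairs `(n, c)`.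

Method. The starting results of the library on the density of hyperbolicity (by other authors) show
that the critical point of `z ^ n + c` escapes or is attracted by an attracting cycle outside such
small sets, except for some Misiurewicz polynomials if `c` is a root of unity. We add that the Julia
set of a hyperbolic polynomial is a null set (porosity, by Koebe's distortion theorem) and that the
Misiurewicz polynomials `z ^ n + c`, whose critical value has its orbit on the unit circle, satisfy
the Collet-Eckmann condition, so that their Julia sets are null sets.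
-/

set_option autoImplicit false

open MeasureTheory Filter Metric Topology Polynomial

namespace Pool.Agent.Results.MP_70a088_an.LargeDegrees

open Pool.Agent.N634.LF

/-- The degrees `n ≥ 2` for which the Julia set of `z ^ n + c` has positive area or carries an
invariant line field. -/
def exceptional (c : ℂ) : Set ℕ := {n | 2 ≤ n ∧ ¬ Rigid (X ^ n + C c)}

theorem not_exceptional {n : ℕ} {c : ℂ} (h : volume (julia (uni n c)) = 0) :
    n ∉ exceptional c := by
  rintro ⟨-, h1⟩
  exact h1 (rigid_of_null h)

theorem sub (c : ℂ) : exceptional c ⊆ Pool.Agent.R240.Alm.bad c := by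
  intro n hn
  have hn2 := hn.1
  by_contra hcon
  refine not_exceptional (null_of_not_bad hn2 ?_) hn
  rintro ⟨h1, h2⟩
  exact hcon ⟨hn2, h1, h2⟩

theorem sub_root (c : ℂ) : exceptional c ⊆
    {n | n ∈ Pool.Agent.R240.Alm.bad c ∧ c ^ (3 * (n - 1)) ≠ 1} := by
  intro n hn
  refine ⟨sub c hn, fun h3 => ?_⟩
  obtain ⟨hn2, hM, hno⟩ := sub c hn
  refine not_exceptional (measure_mono_null
    (julia_subset (by rw [natDegree_uni hn2]; exact hn2)) ?_) hn
  exact filled_null_of_unit hn2 (cube_cases hn2 h3 hM hno)

/-- Invariant line fields and Julia sets of positive area in the families `z ^ n + c` are rare for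
large `n`. -/
theorem result :
    -- finitely many exceptional degrees off the unit circle and at the roots of unity
    (∀ c : ℂ, ‖c‖ ≠ 1 → (exceptional c).Finite) ∧
    (∀ (c : ℂ) (k : ℕ), 0 < k → c ^ k = 1 → (exceptional c).Finite) ∧
    -- the gaps tend to infinity, and the density is zero, at every `c`
    (∀ c : ℂ, (∀ Q : ℕ, {n | n ∈ exceptional c ∧ ∃ m ∈ exceptional c, n < m ∧ m ≤ n + Q}.Finite) ∧
      Tendsto (fun N : ℕ => ((exceptional c ∩ Set.Iio N).ncard : ℝ) / N) atTop (𝓝 0)) ∧
    -- the number of exceptional degrees at almost every point of the unit circle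
    (∀ s : ℝ, 2 < s → ∀ᵐ θ : ℝ, ∃ K : ℝ, ∀ N : ℕ, 3 ≤ N →
      ((exceptional (Complex.exp (θ * Complex.I)) ∩ Set.Iic N).ncard : ℝ) ≤
        K * (Real.log N * (1 + Real.log (Real.log N)) ^ s)) ∧
    -- the length of the exceptional set on the unit circle
    (∀ n : ℕ, 10 ^ 6 ≤ n → volume {θ : ℝ | θ ∈ Set.Icc 0 (2 * Real.pi) ∧
      n ∈ exceptional (Complex.exp (θ * Complex.I))} ≤
        ENNReal.ofReal ((136 * Real.log (Real.log n) + 2720) / n)) ∧
    -- the area of the exceptional set
    ∃ K : ℝ, 0 < K ∧ ∀ n : ℕ, 2 ≤ n →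
      volume {c : ℂ | n ∈ exceptional c} ≤ ENNReal.ofReal (K / n) ∧
      volume {c : ℂ | n ∈ exceptional c} ≤ ENNReal.ofReal (K / Real.log n) *
        volume (N62a1eb23.multibrotSet n \
          {c | ∃ z, N62a1eb23.IsAttractingCycle (fun z => z ^ n + c) 1 z}) ∧
      (∀ Y : ℝ, 1 ≤ Y → volume {c : ℂ | n ∈ exceptional c ∧ Y ≤ n * ‖c‖ ^ (n - 1)} ≤
        ENNReal.ofReal (K * (1 + Real.log Y) / (n * Y))) ∧
      ∀ c₀ : ℂ, 1 ≤ n * ‖c₀‖ ^ (n - 1) →
        volume {c : ℂ | n ∈ exceptional c ∧ ‖c - c₀‖ ≤ ‖c₀‖ / n} ≤
          ENNReal.ofReal (K * (1 + Real.log (n * ‖c₀‖ ^ (n - 1))) / (n * ‖c₀‖ ^ (n - 1))) *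
            volume (closedBall c₀ (‖c₀‖ / n)) := by
  have hfin1 : ∀ c : ℂ, ‖c‖ ≠ 1 → (exceptional c).Finite := fun c hc =>
    (Pool.Agent.R240.Alm.bad_finite hc).subset (sub c)
  have hfin2 : ∀ (c : ℂ) (k : ℕ), 0 < k → c ^ k = 1 → (exceptional c).Finite :=
    fun c k hk hc => (Pool.Agent.R240.Alm.bad_root hk hc).subset (sub_root c)
  refine ⟨hfin1, hfin2, fun c => ?_, fun s hs => ?_, fun n hn => ?_, ?_⟩
  · by_cases hroot : ∀ k : ℕ, 0 < k → c ^ k ≠ 1
    · refine ⟨fun Q => (Pool.Agent.R240.Alm.gaps hroot Q).subset ?_, ?_⟩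
      · rintro n ⟨h1, m, h2, h3⟩
        exact ⟨sub c h1, m, sub c h2, h3⟩
      · refine squeeze_zero (fun N => by positivity) (fun N => ?_)
          (Pool.Agent.R240.Alm.density hroot)
        have h1 : (exceptional c ∩ Set.Iio N).ncard ≤
            (Pool.Agent.R240.Alm.bad c ∩ Set.Iio N).ncard :=
          Set.ncard_le_ncard (Set.inter_subset_inter_left _ (sub c))
            ((Set.finite_Iio N).subset Set.inter_subset_right)
        gcongr
    · push Not at hroot
      obtain ⟨k, hk, hck⟩ := hroot
      have hf := hfin2 c k hk hck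
      refine ⟨fun Q => hf.subset fun n hn => hn.1, ?_⟩
      have h1 : ∀ N : ℕ, ((exceptional c ∩ Set.Iio N).ncard : ℝ) / N ≤
          ((exceptional c).ncard : ℝ) / N := by
        intro N
        have h2 : (exceptional c ∩ Set.Iio N).ncard ≤ (exceptional c).ncard :=
          Set.ncard_le_ncard Set.inter_subset_left hf
        gcongr
      exact squeeze_zero (fun N => by positivity) h1
        (tendsto_const_div_atTop_nhds_zero_nat _)
  · filter_upwards [Pool.Agent.N228.UC.ae_count hs] with θ hθ
    obtain ⟨K, hK⟩ := hθ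
    refine ⟨K, fun N hN => le_trans ?_ (hK N hN)⟩
    exact_mod_cast Set.ncard_le_ncard (Set.inter_subset_inter_left _ (sub _))
      ((Set.finite_Iic N).subset Set.inter_subset_right)
  · have hsub : {θ : ℝ | θ ∈ Set.Icc 0 (2 * Real.pi) ∧
        n ∈ exceptional (Complex.exp (θ * Complex.I))} ⊆ Pool.Agent.N228.UC.CB n := by
      rintro θ ⟨h1, h2⟩
      exact ⟨h1, (sub _ h2).2⟩
    refine (measure_mono hsub).trans ?_
    rw [← ENNReal.ofReal_toReal (Pool.Agent.N228.UC.vol_ne_top (T := Pool.Agent.N228.UC.CB n)
      fun θ h => h.1)]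
    apply ENNReal.ofReal_le_ofReal
    refine (Pool.Agent.N228.UC.len_M hn).2.2.trans (le_of_eq ?_)
    unfold Pool.Agent.N228.UC.er
    ring
  · obtain ⟨K, hK, h⟩ := Pool.Agent.Results.MP_c35c17_an.AreaOrderOneOverN.result
    refine ⟨K, hK, fun n hn => ?_⟩
    obtain ⟨h1, h2, h3, h4⟩ := h n hn
    have hsub : {c : ℂ | n ∈ exceptional c} ⊆ N62a1eb23.multibrotSet n \
        {c | ∃ m z, N62a1eb23.IsAttractingCycle (fun z => z ^ n + c) m z} :=
      fun c hc => (sub c hc).2
    refine ⟨(measure_mono hsub).trans h1, (measure_mono hsub).trans h2, fun Y hY =>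
      (measure_mono ?_).trans (h3 Y hY), fun c₀ hc₀ => (measure_mono ?_).trans (h4 c₀ hc₀)⟩
    · rintro c ⟨hc1, hc2⟩
      exact ⟨hsub hc1, hc2⟩
    · rintro c ⟨hc1, hc2⟩
      exact ⟨hsub hc1, by rwa [mem_closedBall, dist_eq_norm]⟩

end Pool.Agent.Results.MP_70a088_an.LargeDegrees
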