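import Mathlib
import Pool.Agent.N634.LF.Line
import Pool.Agent.Results.MP_28f8a1_an.UniformCoarseDensity
import Pool.Agent.Results.MP_28f8a1_an.GenericLogarithmicScales

/-!
# Multiples of polynomials, and polynomials with coefficients of generic size, have no invariant line
fields

For every polynomial `T` of degree `N ≥ 2` which is not exceptional (for instance `T(0) ≠ 0`) most of
the multiples `λ T` have Julia sets of area zero and no invariant line fields on them, uniformly in
`T`; and for every support, in almost every direction of the space of the logarithms of the moduli of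
the coefficients this holds for all polynomials far enough in this direction.

Method: starting results of the library (MP_28f8a1_an.UniformCoarseDensity,
MP_28f8a1_an.GenericLogarithmicScales, of other authors) show that these polynomials are hyperbolic.
We prove that the Julia set of a hyperbolic polynomial is a null set.
-/

set_option autoImplicit false

open Filter Topology Polynomial MeasureTheory

namespace Pool.Agent.Results.MP_70a088_an.Multiples

open Pool.Agent.N634.LF
open Pool.Agent.Results.MP_28f8a1_an.UniformCoarseDensity (Exceptional)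

/-- The polynomial with support `I` whose `i`-th coefficient has the modulus `exp (x i)` and the
argument given by the unimodular number `u i`. -/
noncomputable def poly {I : Finset ℕ} (u : I → ℂ) (x : I → ℝ) : ℂ[X] :=
  ∑ i : I, C (((Real.exp (x i) : ℝ) : ℂ) * u i) * X ^ (i : ℕ)

/-- The polynomial with support in `I` and the coefficients `a`. -/
noncomputable def poly' {I : Finset ℕ} (a : I → ℂ) : ℂ[X] := ∑ i : I, C (a i) * X ^ (i : ℕ)

theorem natDegree_poly' {I : Finset ℕ} (a : I → ℂ) {n : ℕ} (hn : n ∈ I) (h : a ⟨n, hn⟩ ≠ 0) :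
    n ≤ (poly' a).natDegree := by
  apply le_natDegree_of_ne_zero
  unfold poly'
  rw [finset_sum_coeff, Finset.sum_eq_single ⟨n, hn⟩]
  · simpa using h
  · intro i _ hi
    rw [coeff_C_mul, coeff_X_pow, if_neg, mul_zero]
    intro h1
    exact hi (Subtype.ext h1.symm)
  · intro h1
    exact absurd (Finset.mem_univ _) h1

/-- Let `N ≥ 2`.

(1) Let `T` be a polynomial of degree `N` which is not exceptional (for instance, `T 0 ≠ 0`), and
`K ≥ 0`. The set of the `s ∈ [0, K]` for which some multiple `λ T` with `|λ| = exp s` is not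
hyperbolic, or has a Julia set of positive area or an invariant line field, has measure at most
`1000 N ^ 5 (1 + log (1 + K))`.

(2) If `T` has degree `N`, `T 0 ≠ 0` and the quotients of the moduli of the zeros of `T` are at most
`exp Λ`, then the set of all real `s` for which some multiple `λ T` with `|λ| = exp s` is not
hyperbolic, or has a Julia set of positive area or an invariant line field, has measure at most
`2000 N ^ 6 (1 + log (1 + Λ))`.

(3) Let `I` be a finite set of exponents with maximum `N` and with `0 ∈ I` or `1 ∉ I`. For all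
arguments `u i` and all `R > 0`, the proportion of the `x ∈ [-R, R] ^ I` for which the polynomial
`∑ exp (x i) * u i * z ^ i` is not hyperbolic, or has a Julia set of positive area or an invariant
line field, is at most `2 ^ |I| * 1000 N ^ 5 (1 + log (1 + R)) / R`.

(4) Let `I` be a finite set of exponents, one of them at least two. For Lebesgue almost every
direction `α ∈ ℝ ^ I` there are `δ > 0` and `t₀` such that for all `t ≥ t₀` EVERY polynomial
`∑ a i z ^ i` whose coefficients satisfy `|log |a i| - t α i| ≤ δ t` for all `i ∈ I` is hyperbolic and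
has a Julia set of area zero and no invariant line field. -/
theorem result :
    (∀ N : ℕ, 2 ≤ N → ∀ T : ℂ[X], T.natDegree = N → ¬ Exceptional T →
      ∀ K : ℝ, 0 ≤ K → volume {s : ℝ | (0 ≤ s ∧ s ≤ K) ∧ ∃ u : ℂ, ‖u‖ = 1 ∧
        ¬ (Hyperbolic (C ((Real.exp s : ℝ) * u) * T) ∧ Rigid (C ((Real.exp s : ℝ) * u) * T))} ≤
        ENNReal.ofReal (1000 * (N : ℝ) ^ 5 * (1 + Real.log (1 + K)))) ∧
    (∀ N : ℕ, 2 ≤ N → ∀ T : ℂ[X], T.natDegree = N → T.eval 0 ≠ 0 → ∀ Λ : ℝ, 0 ≤ Λ →
      (∀ x y : ℂ, T.eval x = 0 → T.eval y = 0 → ‖x‖ ≤ Real.exp Λ * ‖y‖) →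
      volume {s : ℝ | ∃ u : ℂ, ‖u‖ = 1 ∧
        ¬ (Hyperbolic (C ((Real.exp s : ℝ) * u) * T) ∧ Rigid (C ((Real.exp s : ℝ) * u) * T))} ≤
        ENNReal.ofReal (2000 * (N : ℝ) ^ 6 * (1 + Real.log (1 + Λ)))) ∧
    (∀ N : ℕ, 2 ≤ N → ∀ I : Finset ℕ, N ∈ I → (∀ i ∈ I, i ≤ N) → (0 ∈ I ∨ 1 ∉ I) → ∀ u : I → ℂ,
      (∀ i, ‖u i‖ = 1) → ∀ R : ℝ, 0 < R →
      volume {x : I → ℝ | (∀ i, |x i| ≤ R) ∧
        ¬ (Hyperbolic (poly u x) ∧ Rigid (poly u x))} ≤
      ENNReal.ofReal (2 ^ I.card * (1000 * (N : ℝ) ^ 5 * (1 + Real.log (1 + R))) / R) *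
        volume {x : I → ℝ | ∀ i, |x i| ≤ R}) ∧
    (∀ I : Finset ℕ, (∃ n ∈ I, 2 ≤ n) → ∀ᵐ α : I → ℝ, ∃ δ : ℝ, 0 < δ ∧ ∃ t₀ : ℝ, ∀ t : ℝ, t₀ ≤ t →
      ∀ a : I → ℂ, (∀ i, a i ≠ 0) → (∀ i, |Real.log ‖a i‖ - t * α i| ≤ δ * t) →
        Hyperbolic (poly' a) ∧ Rigid (poly' a)) := by
  have hne : ∀ (s : ℝ) (u : ℂ), ‖u‖ = 1 → ((Real.exp s : ℝ) : ℂ) * u ≠ 0 := by
    intro s u hu
    refine mul_ne_zero (by exact_mod_cast (Real.exp_pos s).ne') ?_
    rintro rfl
    simp at hu
  refine ⟨fun N hN T hT hexc K hK => ?_, fun N hN T hT h0 Λ hΛ0 hΛ => ?_,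
    fun N hN I hNI hmax h01 u hu R hR => ?_, fun I hI => ?_⟩
  · refine (measure_mono ?_).trans
      (((Pool.Agent.Results.MP_28f8a1_an.UniformCoarseDensity.result N hN).1 T hT hexc).1 K hK)
    rintro s ⟨hs, u, hu, hnot⟩
    refine ⟨hs, u, hu, fun h => hnot ?_⟩
    have h7 : Hyperbolic (C ((Real.exp s : ℝ) * u) * T) := h.1
    exact ⟨h7, h7.rigid (by rw [natDegree_C_mul (hne s u hu), hT]; exact hN)⟩
  · refine (measure_mono ?_).trans
      ((Pool.Agent.Results.MP_28f8a1_an.UniformCoarseDensity.result N hN).2.1 T hT h0 Λ hΛ0 hΛ)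
    rintro s ⟨u, hu, hnot⟩
    refine ⟨u, hu, fun h => hnot ?_⟩
    have h7 : Hyperbolic (C ((Real.exp s : ℝ) * u) * T) := h.1
    exact ⟨h7, h7.rigid (by rw [natDegree_C_mul (hne s u hu), hT]; exact hN)⟩
  · refine (measure_mono ?_).trans
      ((Pool.Agent.Results.MP_28f8a1_an.UniformCoarseDensity.result N hN).2.2.1
        I hNI hmax h01 u hu R hR)
    rintro x ⟨hx, hnot⟩
    refine ⟨hx, fun h => hnot ?_⟩
    have h7 : Hyperbolic (poly u x) := h.1
    refine ⟨h7, h7.rigid (hN.trans ?_)⟩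
    exact natDegree_poly' (fun i : I => ((Real.exp (x i) : ℝ) : ℂ) * u i) hNI
      (hne _ _ (hu _))
  · filter_upwards [Pool.Agent.Results.MP_28f8a1_an.GenericLogarithmicScales.generic I hI]
      with α hα
    obtain ⟨δ, hδ, t₀, h⟩ := hα
    refine ⟨δ, hδ, t₀, fun t ht a ha0 ha => ?_⟩
    have h7 : Hyperbolic (poly' a) :=
      (Pool.Agent.Results.MP_28f8a1_an.GenericLogarithmicScales.hyperbolic_of (h t ht a ha0 ha)).1
    obtain ⟨n, hn, hn2⟩ := hI
    exact ⟨h7, h7.rigid (hn2.trans (natDegree_poly' a hn (ha0 _)))⟩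

end Pool.Agent.Results.MP_70a088_an.Multiples
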