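import Mathlib
import Pool.Agent.N634.LF.Line
import Pool.Agent.Results.MP_28f8a1_an.AllLawsOfRoots
import Pool.Agent.Results.MP_28f8a1_an.CoefficientVolume

/-!
# Random polynomials have no invariant line fields

Polynomials with independent random roots of bounded density (no other hypothesis), almost all small
perturbations of the roots of any polynomial of large degree, and all but an exponentially small
proportion of the polynomials with all roots in a disc have Julia sets of area zero and no invariant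
line fields on them.

Method: starting results of the library (MP_28f8a1_an.AllLawsOfRoots, MP_28f8a1_an.CoefficientVolume,
of other authors) show that these polynomials are hyperbolic. We prove that the Julia set of a
hyperbolic polynomial is a null set.
-/

set_option autoImplicit false

open Filter Topology Polynomial MeasureTheory

namespace Pool.Agent.Results.MP_70a088_an.RandomPolynomials

open Pool.Agent.N634.LF
open Pool.Agent.Results.MP_28f8a1_an.AllLawsOfRoots (Law withRoots)
open Pool.Agent.Results.MP_28f8a1_an.CoefficientVolume (withCoeffs RootsInDisc)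

theorem natDegree_withRoots {N : ℕ} {a : ℂ} (ha : a ≠ 0) (z : Fin N → ℂ) :
    (withRoots a z).natDegree = N := by
  unfold withRoots
  rw [natDegree_C_mul ha, natDegree_prod_of_monic _ _ fun i _ => monic_X_sub_C _]
  simp

theorem natDegree_withCoeffs {N : ℕ} (a : Fin N → ℂ) : (withCoeffs a).natDegree = N := by
  unfold withCoeffs
  have h1 : (∑ k : Fin N, C (a k) * X ^ (k : ℕ) : ℂ[X]).degree < (N : WithBot ℕ) :=
    degree_sum_fin_lt a
  have h2 : (X ^ N + ∑ k : Fin N, C (a k) * X ^ (k : ℕ) : ℂ[X]).degree = N := by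
    rw [degree_add_eq_left_of_degree_lt (by rwa [degree_X_pow]), degree_X_pow]
  exact natDegree_eq_of_degree_eq_some h2

/-- (1) For all `R` and `D` there is a constant `K` such that for every degree `N ≥ 2`, all laws
`μ 1, …, μ N` of density at most `D` on the disc `|z| ≤ R` and every leading coefficient `a ≠ 0` the
polynomial with leading coefficient `a` and independent roots of the laws `μ i` is hyperbolic, with a
Julia set of area zero and without invariant line field, outside an event of probability at most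
`K / N ^ (1 / 256)`.

(2) For all `R` and `ε > 0` there is `K` such that for every polynomial of degree `N ≥ 2` with leading
coefficient `a ≠ 0` and all roots `z i` in the disc `|z| ≤ R` the same holds for all perturbations
`w` of the roots by at most `ε` outside a subset of the polydisc `{w : |w i - z i| ≤ ε}` whose volume
is at most `K / N ^ (1 / 256)` times that of the polydisc.

(3) Let `p` be a complex number and `ρ > 0`, `ρ ≠ 1`, and `|p| ≠ 1` if `ρ < 1`; let `A ≥ 1`. There
are `K` and `θ < 1` such that for every degree `N ≥ 2`: among the monic polynomials of degree `N` with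
all roots in the disc with centre `p` and radius `ρ`, the proportion (Lebesgue measure on the
coefficients) of those having a multiple `α * T`, `1 / A ≤ |α| ≤ A`, which is not hyperbolic or has a
Julia set of positive area or an invariant line field, is at most `K θ ^ N`. -/
theorem result :
    (∀ R D : ℝ, ∃ K : ℝ, 0 < K ∧ ∀ N : ℕ, 2 ≤ N → ∀ (μ : Fin N → Measure ℂ) (a : ℂ),
      (∀ i, Law D R (μ i)) → a ≠ 0 →
        Measure.pi μ {z | ¬ (Hyperbolic (withRoots a z) ∧ Rigid (withRoots a z))} ≤
          ENNReal.ofReal (K / (N : ℝ) ^ (1 / 256 : ℝ))) ∧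
    (∀ R ε : ℝ, 0 < ε → ∃ K : ℝ, 0 < K ∧ ∀ N : ℕ, 2 ≤ N → ∀ (z : Fin N → ℂ) (a : ℂ),
      (∀ i, ‖z i‖ ≤ R) → a ≠ 0 →
        volume {w : Fin N → ℂ | ¬ (Hyperbolic (withRoots a w) ∧ Rigid (withRoots a w)) ∧
          ∀ i, ‖w i - z i‖ ≤ ε} ≤
          ENNReal.ofReal (K / (N : ℝ) ^ (1 / 256 : ℝ)) *
            volume {w : Fin N → ℂ | ∀ i, ‖w i - z i‖ ≤ ε}) ∧
    (∀ (p : ℂ) (ρ A : ℝ), 0 < ρ → ρ ≠ 1 → (ρ < 1 → ‖p‖ ≠ 1) → 1 ≤ A →
      ∃ K θ : ℝ, 0 < K ∧ 0 < θ ∧ θ < 1 ∧ ∀ N : ℕ, 2 ≤ N →
        volume (RootsInDisc p ρ N) ≠ 0 ∧ volume (RootsInDisc p ρ N) ≠ ⊤ ∧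
        volume {a : Fin N → ℂ | a ∈ RootsInDisc p ρ N ∧
          ∃ α : ℂ, 1 / A ≤ ‖α‖ ∧ ‖α‖ ≤ A ∧
            ¬ (Hyperbolic (C α * withCoeffs a) ∧ Rigid (C α * withCoeffs a))} ≤
          ENNReal.ofReal (K * θ ^ N) * volume (RootsInDisc p ρ N)) := by
  obtain ⟨h1, h2⟩ := Pool.Agent.Results.MP_28f8a1_an.AllLawsOfRoots.result
  refine ⟨fun R D => ?_, fun R ε hε => ?_, fun p ρ A h3 h4 h5 h6 => ?_⟩
  · obtain ⟨K, hK, h⟩ := h1 R D
    refine ⟨K, hK, fun N hN μ a hμ ha => (measure_mono ?_).trans (h N hN μ a hμ ha)⟩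
    intro z hz hgood
    refine hz ?_
    have h3 : Hyperbolic (withRoots a z) := hgood.1
    exact ⟨h3, h3.rigid (by rw [natDegree_withRoots ha]; exact hN)⟩
  · obtain ⟨K, hK, h⟩ := h2 R ε hε
    refine ⟨K, hK, fun N hN z a hz ha => (measure_mono ?_).trans (h N hN z a hz ha)⟩
    rintro w ⟨hw, hw2⟩
    refine ⟨fun hgood => hw ?_, hw2⟩
    have h3 : Hyperbolic (withRoots a w) := hgood.1
    exact ⟨h3, h3.rigid (by rw [natDegree_withRoots ha]; exact hN)⟩
  · obtain ⟨K, θ, hK, hθ, hθ1, h⟩ :=
      Pool.Agent.Results.MP_28f8a1_an.CoefficientVolume.result p ρ A h3 h4 h5 h6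
    refine ⟨K, θ, hK, hθ, hθ1, fun N hN => ?_⟩
    obtain ⟨e1, e2, e3⟩ := h N
    refine ⟨e1, e2, (measure_mono ?_).trans e3⟩
    rintro a ⟨ha, α, hα1, hα2, hno⟩
    refine ⟨ha, α, hα1, hα2, fun hgood => hno ?_⟩
    have h7 : Hyperbolic (C α * withCoeffs a) := hgood
    have hα0 : α ≠ 0 := by
      rintro rfl
      rw [norm_zero] at hα1
      have : 0 < 1 / A := by positivity
      linarith
    exact ⟨h7, h7.rigid (by rw [natDegree_C_mul hα0, natDegree_withCoeffs]; exact hN)⟩

end Pool.Agent.Results.MP_70a088_an.RandomPolynomials
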